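import Pool.Agent.U6.VE.Stm

/-! Project VE, package PAU: almost sure paucity from the expectation (helper894). -/

set_option autoImplicit false

namespace Pool.Agent.U894.VE

open Pool.Agent.U6.VE
open MeasureTheory ProbabilityTheory
open scoped BigOperators ENNReal NNReal

lemma nd_mono (s k : ℕ) {N N' : ℕ} (h : N ≤ N') (θ : ℕ → ℝ) : ND s k N θ ⊆ ND s k N' θ := by
  classical
  intro p hp
  simp only [ND, Sol, Finset.mem_filter, Finset.mem_product, Fintype.mem_piFinset,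
    Finset.mem_Icc] at hp ⊢
  obtain ⟨⟨⟨h1, h2⟩, h3⟩, h4⟩ := hp
  exact ⟨⟨⟨fun i => ⟨(h1 i).1, (h1 i).2.trans h⟩, fun i => ⟨(h2 i).1, (h2 i).2.trans h⟩⟩, h3⟩, h4⟩

lemma nd_meas {Ω : Type} [MeasurableSpace Ω] (s k N : ℕ) (θ : ℕ → Ω → ℝ)
    (hθ : ∀ n, Measurable (θ n)) :
    Measurable (fun ω => ((ND s k N (fun n => θ n ω)).card : ℝ≥0∞)) := by
  classical
  have e : (fun ω => ((ND s k N (fun n => θ n ω)).card : ℝ≥0∞)) = fun ω =>
      ∑ p ∈ ((Fintype.piFinset fun _ : Fin s => Finset.Icc 1 N) ×ˢ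
        (Fintype.piFinset fun _ : Fin s => Finset.Icc 1 N)),
        (if (∀ j : Fin k, |∑ i, ((p.1 i : ℝ) + θ (p.1 i) ω) ^ (j.val + 1) -
          ∑ i, ((p.2 i : ℝ) + θ (p.2 i) ω) ^ (j.val + 1)| < 1) ∧
            ¬ ∃ σ : Equiv.Perm (Fin s), p.2 = p.1 ∘ σ then (1 : ℝ≥0∞) else 0) := by
    funext ω
    rw [ND, Sol, Finset.filter_filter, Finset.card_filter]
    push_cast
    rfl
  rw [e]
  refine Finset.measurable_sum _ fun p _ => ?_
  refine Measurable.ite ?_ measurable_const measurable_const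
  rw [Set.setOf_and]
  refine MeasurableSet.inter ?_ (MeasurableSet.const _)
  rw [Set.setOf_forall]
  refine MeasurableSet.iInter fun j => ?_
  refine measurableSet_lt ?_ measurable_const
  have h1 : ∀ (q : Fin s → ℕ), Measurable fun ω => ∑ i, ((q i : ℝ) + θ (q i) ω) ^ (j.val + 1) :=
    fun q => Finset.measurable_sum _ fun i _ => ((hθ (q i)).const_add _).pow_const _
  exact continuous_abs.measurable.comp ((h1 p.1).sub (h1 p.2))

theorem t_PAU : T_PAU := by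
  intro hEX k s D hk hs hks
  obtain ⟨C, η, hC, hη, h⟩ := hEX k s D hk hs hks
  refine ⟨η / 2, by positivity, ?_⟩
  intro Ω _ P θ hM
  set e : ℝ := (s : ℝ) - η / 2 with he
  have hmeas : ∀ N, Measurable (fun ω => ((ND s k N (fun n => θ n ω)).card : ℝ≥0∞)) :=
    fun N => nd_meas s k N θ hM.meas
  let f : ℕ → Ω → ℝ≥0∞ := fun i ω =>
    ENNReal.ofReal (((2 : ℝ) ^ i) ^ (-e)) * ((ND s k (2 ^ i) (fun n => θ n ω)).card : ℝ≥0∞)
  have hfm : ∀ i, Measurable (f i) := fun i => (hmeas (2 ^ i)).const_mul _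
  have hr0 : (0 : ℝ) ≤ (2 : ℝ) ^ (-(η / 2)) := by positivity
  have hr1 : (2 : ℝ) ^ (-(η / 2)) < 1 :=
    Real.rpow_lt_one_of_one_lt_of_neg (by norm_num) (by linarith)
  have hterm : ∀ i, ∫⁻ ω, f i ω ∂P ≤ ENNReal.ofReal (C * ((2 : ℝ) ^ (-(η / 2))) ^ i) := by
    intro i
    have h1 := h Ω P θ hM (2 ^ i) Nat.one_le_two_pow
    have h2 : ∫⁻ ω, f i ω ∂P = ENNReal.ofReal (((2 : ℝ) ^ i) ^ (-e)) *
        ∫⁻ ω, ((ND s k (2 ^ i) (fun n => θ n ω)).card : ℝ≥0∞) ∂P :=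
      lintegral_const_mul _ (hmeas _)
    rw [h2]
    calc ENNReal.ofReal (((2 : ℝ) ^ i) ^ (-e)) *
        ∫⁻ ω, ((ND s k (2 ^ i) (fun n => θ n ω)).card : ℝ≥0∞) ∂P
        ≤ ENNReal.ofReal (((2 : ℝ) ^ i) ^ (-e)) *
          ENNReal.ofReal (C * ((2 ^ i : ℕ) : ℝ) ^ ((s : ℝ) - η)) := mul_le_mul_right h1 _
      _ = ENNReal.ofReal (C * ((2 : ℝ) ^ (-(η / 2))) ^ i) := by
        rw [← ENNReal.ofReal_mul (by positivity)]
        congr 1
        push_cast
        have e1 : ((2 : ℝ) ^ i) ^ (-e) * ((2 : ℝ) ^ i) ^ ((s : ℝ) - η) =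
            ((2 : ℝ) ^ (-(η / 2))) ^ i := by
          rw [← Real.rpow_add (by positivity), ← Real.rpow_natCast 2 i, ← Real.rpow_mul (by norm_num),
            ← Real.rpow_natCast ((2 : ℝ) ^ (-(η / 2))) i, ← Real.rpow_mul (by norm_num)]
          congr 1
          rw [he]; ring
        rw [← e1]; ring
  have hsum : ∫⁻ ω, ∑' i, f i ω ∂P ≠ ∞ := by
    rw [lintegral_tsum (fun i => (hfm i).aemeasurable)]
    refine ne_top_of_le_ne_top ?_ (ENNReal.tsum_le_tsum hterm)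
    rw [← ENNReal.ofReal_tsum_of_nonneg (fun i => by positivity)
      ((summable_geometric_of_lt_one hr0 hr1).mul_left C)]
    exact ENNReal.ofReal_ne_top
  have hae := ae_lt_top (Measurable.ennreal_tsum hfm) hsum
  filter_upwards [hae] with ω hω
  refine ⟨(∑' i, f i ω).toReal * 2 ^ |e|, ?_⟩
  intro N hN
  set M := (∑' i, f i ω).toReal with hMdef
  have hM0 : 0 ≤ M := ENNReal.toReal_nonneg
  have hpt : ∀ i : ℕ, ((ND s k (2 ^ i) (fun n => θ n ω)).card : ℝ) ≤ M * ((2 : ℝ) ^ i) ^ e := by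
    intro i
    have h1 : (f i ω).toReal ≤ M := ENNReal.toReal_mono hω.ne (ENNReal.le_tsum i)
    have h2 : (f i ω).toReal = ((2 : ℝ) ^ i) ^ (-e) *
        ((ND s k (2 ^ i) (fun n => θ n ω)).card : ℝ) := by
      simp only [f]
      rw [ENNReal.toReal_mul, ENNReal.toReal_ofReal (by positivity), ENNReal.toReal_natCast]
    rw [h2] at h1
    have h3 : (0 : ℝ) < ((2 : ℝ) ^ i) ^ e := by positivity
    have h4 : ((2 : ℝ) ^ i) ^ (-e) * ((2 : ℝ) ^ i) ^ e = 1 := by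
      rw [← Real.rpow_add (by positivity)]; simp
    calc ((ND s k (2 ^ i) (fun n => θ n ω)).card : ℝ)
        = (((2 : ℝ) ^ i) ^ (-e) * ((ND s k (2 ^ i) (fun n => θ n ω)).card : ℝ)) *
          ((2 : ℝ) ^ i) ^ e := by
          rw [mul_right_comm, h4, one_mul]
      _ ≤ M * ((2 : ℝ) ^ i) ^ e := by gcongr
  have hN0 : (0 : ℝ) < N := by exact_mod_cast hN
  set i := Nat.log 2 N + 1 with hi
  have hlt : N < 2 ^ i := Nat.lt_pow_succ_log_self (by norm_num) N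
  have hle : 2 ^ i ≤ 2 * N := by
    rw [hi, pow_succ, mul_comm]
    exact Nat.mul_le_mul_left 2 (Nat.pow_log_le_self 2 (by omega))
  have hltR : (N : ℝ) ≤ (2 : ℝ) ^ i := by exact_mod_cast hlt.le
  have hleR : (2 : ℝ) ^ i ≤ 2 * N := by exact_mod_cast hle
  have hc : ((2 : ℝ) ^ i) ^ e ≤ 2 ^ |e| * (N : ℝ) ^ e := by
    rcases le_total 0 e with h0 | h0
    · rw [abs_of_nonneg h0, ← Real.mul_rpow (by norm_num) hN0.le]
      exact Real.rpow_le_rpow (by positivity) hleR h0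
    · have h5 : ((2 : ℝ) ^ i) ^ e ≤ (N : ℝ) ^ e := Real.rpow_le_rpow_of_nonpos hN0 hltR h0
      have h6 : (1 : ℝ) ≤ 2 ^ |e| := Real.one_le_rpow (by norm_num) (abs_nonneg e)
      have h7 : (0 : ℝ) ≤ (N : ℝ) ^ e := by positivity
      nlinarith
  have hcard : ((ND s k N (fun n => θ n ω)).card : ℝ) ≤
      ((ND s k (2 ^ i) (fun n => θ n ω)).card : ℝ) := by
    exact_mod_cast Finset.card_le_card (nd_mono s k hlt.le _)
  calc ((ND s k N (fun n => θ n ω)).card : ℝ)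
      ≤ ((ND s k (2 ^ i) (fun n => θ n ω)).card : ℝ) := hcard
    _ ≤ M * ((2 : ℝ) ^ i) ^ e := hpt i
    _ ≤ M * (2 ^ |e| * (N : ℝ) ^ e) := by gcongr
    _ = M * 2 ^ |e| * (N : ℝ) ^ e := by ring

end Pool.Agent.U894.VE
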